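import Pool.Agent.Q127.EqStar.Finite

/-!
# Equitably 2-choosable disjoint unions of `n` stars (MP_0c0609_co, Q1)

The definitions `starUnion` and `EquitablyChoosable` are in `Pool.Agent.Q127.EqStar.Defs`.

* `n ≥ 5`: the graphs `(n - 5) K_{1,1} + 3 K_{1,2t+1} + 2 K_{1,3t+1}` are equitably 2-choosable
  (`Family`). By Hall's theorem only the vertices whose colour is forced by the colours of the
  centres matter; the core theorem `Data.core` says that some of the 32 choices for the five big
  stars forces at most `6t` leaves (up to a bounded error) to each colour. If not, then the pairs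
  of overloaded colours of two antipodal choices pairwise intersect, so they form a star
  (`Star1`-`Star3`) or a triangle (`Tri`).
* `n ≤ 4`: three explicit list assignments bound the number of leaves (`Finite`).
-/

set_option autoImplicit false

open Q127.EqStar

namespace Pool.Agent.Results.MP_0c0609_co.StarsFinite

/-- For `n ≥ 2` there are only finitely many equitably 2-choosable graphs
`K_{1,m_1} + ... + K_{1,m_n}`, `1 ≤ m_1 ≤ ... ≤ m_n`, if and only if `n ≤ 4`. -/
theorem result (n : ℕ) (hn : 2 ≤ n) :
    {m : Fin n → ℕ | Monotone m ∧ (∀ i, 1 ≤ m i) ∧
      EquitablyChoosable (starUnion m) 2}.Finite ↔ n ≤ 4 := by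
  constructor
  · intro h
    by_contra hlt
    exact infinite n (by omega) h
  · intro h
    have : n = 2 ∨ n = 3 ∨ n = 4 := by omega
    rcases this with rfl | rfl | rfl
    · exact finite_two
    · exact finite_three
    · exact finite_four

end Pool.Agent.Results.MP_0c0609_co.StarsFinite
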